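import Pool.Agent.Lib.MP_35885f_cl.Final

/-!
Problem MP_35885f_co, Q1 (is the basis number at most linear in the treewidth?): the basis number
of a graph which is glued from graphs of basis number at most `b` along cliques is at most
`2 b + 1`; so it is at most `2 k + 3` if the parts have at most `k + 1` vertices, and at most `5`
for chordal graphs.  The definitions of the cycle space, the basis number and of tree
decompositions are in `Pool/Agent/Lib/MP_35885f_co/Defs.lean`, those of `piece` and `IsPEO` in
`Pool/Agent/Lib/MP_35885f_cl/Stat.lean`, that of `CliqueAdhesions` in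
`Pool/Agent/Lib/MP_35885f_cl/Final.lean`.
-/

namespace Pool.Agent.Lib.MP_35885f_old.CliqueSeparators

open Pool.MP_35885f

/-- The basis number and clique separators. -/
theorem result :
    (∀ (V : Type) [Fintype V] (G : SimpleGraph V) (D : TreeDecomp G) (b : ℕ),
      CliqueAdhesions D → (∀ x, basisNumber (piece G {v | v ∈ D.bag x}) ≤ b) →
        basisNumber G ≤ 2 * b + 1) ∧
    (∀ (V : Type) [Fintype V] (G : SimpleGraph V) (D : TreeDecomp G) (k : ℕ),
      CliqueAdhesions D → (∀ x, (D.bag x).card ≤ k + 1) → basisNumber G ≤ 2 * k + 3) ∧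
    (∀ (V : Type) [Fintype V] (G : SimpleGraph V) (r : V → ℕ),
      IsPEO G r → basisNumber G ≤ 5) :=
  ⟨fun _ _ G D b hD hb => cliqueAdhesions_le G D b hD hb,
    fun _ _ G D k hD hk => cliqueAdhesions_width G D k hD hk,
    fun _ _ G r hr => chordal_le G r hr⟩

end Pool.Agent.Lib.MP_35885f_old.CliqueSeparators
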