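import Pool.Agent.Lib.MP_35885f_pw.Path

/-!
Problem MP_35885f_co, Q1 (is the basis number at most linear in the treewidth?): the basis number
of every finite graph is at most its pathwidth plus one (the problem file lists the bound
`4 pw`).  The definitions of the cycle space and of the basis number are in
`Pool/Agent/Lib/MP_35885f_co/Defs.lean`, those of path decompositions and of the pathwidth in
`Pool/Agent/Lib/MP_35885f_pw/Path.lean`.
-/

namespace Pool.Agent.Lib.MP_35885f_old.Pathwidth

open Pool.MP_35885f

/-- The basis number is at most the pathwidth plus one. -/
theorem result : ∀ (V : Type) [Fintype V] (G : SimpleGraph V),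
    basisNumber G ≤ pathwidth G + 1 :=
  fun _ _ G => basisNumber_le_pathwidth G

end Pool.Agent.Lib.MP_35885f_old.Pathwidth
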