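import Pool.Agent.Lib.MP_35885f_co.AppLog

/-!
Problem MP_35885f_co, Q1 (is the basis number at most linear in the treewidth?): the basis number
of every finite graph `G` is at most `3 tw(G) + log₂ |E(G)| + 3`.  Hence the linear bound of Q1
holds for all graphs with at most `2 ^ O(tw)` edges.  The definitions are in
`Pool/Agent/Lib/MP_35885f_co/Defs.lean`.
-/

namespace Pool.Agent.Lib.MP_35885f_old.TreewidthLog

open Pool.MP_35885f

/-- The basis number is at most `3 tw(G) + log₂ |E(G)| + 3`. -/
theorem result : ∀ (V : Type) [Fintype V] (G : SimpleGraph V),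
    basisNumber G ≤ 3 * treewidth G + Nat.log 2 (Nat.card G.edgeSet) + 3 :=
  fun _ _ G => basisNumber_le_log G

end Pool.Agent.Lib.MP_35885f_old.TreewidthLog
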